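import Mathlib

/-!
# Homothetic closed curves, not circles, whose distance graph is 2-regular with finite components

In the plane `ℂ` let `p z = z + z³ / 10` for `|z| = 1`. Then
`p z - p w = (z - w) (1 + (z² + z w + w²) / 10)`, and `|p z - p w|² = 3` holds exactly when
`z² + z w + w² = 0`, that is, when `w = ω z` or `w = ω² z` with `ω = exp (2 π i / 3)`. The curve
`A = {p z}` is a simple closed curve and not a circle. In dimension `n = 2` take `B = A` and
`d = √3`; in dimension `n ≥ 3` let `B` be the translate of `A` by a unit vector orthogonal to the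
plane of `A` and `d = 2`.
-/

set_option autoImplicit false

open Complex

namespace Pool.Agent.Results.MP_945a85_co.NotCircles

/-- Euclidean `n`-space. -/
abbrev E (n : ℕ) : Type := EuclideanSpace ℝ (Fin n)

/-- A closed locus: the image of a continuous map from the circle. -/
def IsClosedLocus {n : ℕ} (A : Set (E n)) : Prop :=
  ∃ f : Circle → E n, Continuous f ∧ Set.range f = A

/-- A simple closed locus: the image of a continuous injective map from the circle. -/
def IsSimpleClosedLocus {n : ℕ} (A : Set (E n)) : Prop :=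
  ∃ f : Circle → E n, Continuous f ∧ Function.Injective f ∧ Set.range f = A

/-- `B` is the image of `A` under some `x ↦ r x + v` with `r ≠ 0`. -/
def Homothetic {n : ℕ} (A B : Set (E n)) : Prop :=
  ∃ (r : ℝ) (v : E n), r ≠ 0 ∧ B = (fun x => r • x + v) '' A

/-- A circle: the points of an affine plane at a given positive distance from a given point of it. -/
def IsCircle {n : ℕ} (C : Set (E n)) : Prop :=
  ∃ (c : E n) (r : ℝ) (P : Submodule ℝ (E n)), Module.finrank ℝ P = 2 ∧ 0 < r ∧
    C = {x | x - c ∈ P ∧ dist x c = r}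

/-- The graph `G_d` with vertex set `A ∪ B`: points of `A` are joined to points of `B` at
distance `d`. -/
def distGraph {n : ℕ} (A B : Set (E n)) (d : ℝ) (hd : 0 < d) : SimpleGraph ↥(A ∪ B) where
  Adj x y := (((x : E n) ∈ A ∧ (y : E n) ∈ B) ∨ ((x : E n) ∈ B ∧ (y : E n) ∈ A)) ∧
    dist (x : E n) (y : E n) = d
  symm := ⟨fun x y h => ⟨h.1.symm.imp And.symm And.symm, by rw [dist_comm]; exact h.2⟩⟩
  loopless := ⟨fun x h => by
    have h2 := h.2
    rw [dist_self] at h2
    exact hd.ne h2⟩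

/-! ## The curve in the plane -/

/-- the curve -/
noncomputable def p (z : ℂ) : ℂ := z + z ^ 3 / 10

/-- the primitive third root of unity -/
noncomputable def om : ℂ := ⟨-1 / 2, Real.sqrt 3 / 2⟩

lemma sqrt3 : Real.sqrt 3 * Real.sqrt 3 = 3 := Real.mul_self_sqrt (by norm_num)

lemma om_eq : om ^ 2 + om + 1 = 0 := by
  have h := sqrt3
  apply Complex.ext
  · simp [om, pow_two]; nlinarith
  · simp [om, pow_two]; ring

lemma om_norm : ‖om‖ = 1 := by
  have h := sqrt3
  rw [Complex.norm_def, Complex.normSq_apply, Real.sqrt_eq_one]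
  simp only [om]
  nlinarith

lemma om_cube : om ^ 3 = 1 := by
  linear_combination (om - 1) * om_eq

lemma om_ne : om ^ 2 ≠ om := by
  intro h
  have h1 := om_eq
  rw [h] at h1
  have h2 := congrArg Complex.im h1
  simp only [om, Complex.add_im, Complex.one_im, Complex.zero_im] at h2
  have : (0 : ℝ) < Real.sqrt 3 := Real.sqrt_pos.2 (by norm_num)
  linarith

/-- distances in terms of `c = Re (z w̄)` and `s = Re (z w)` -/
lemma normSq_sub (z w : ℂ) (hz : ‖z‖ = 1) (hw : ‖w‖ = 1) :
    ‖p z - p w‖ ^ 2 = (2 - 2 * (z * (starRingEnd ℂ) w).re) *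
      (1 + (1 + 2 * (z * (starRingEnd ℂ) w).re) * (z * w).re / 5 +
        (1 + 2 * (z * (starRingEnd ℂ) w).re) ^ 2 / 100) := by
  have hz' : z.re * z.re + z.im * z.im = 1 := by
    have := Complex.normSq_eq_norm_sq z
    rw [hz, Complex.normSq_apply] at this
    linarith
  have hw' : w.re * w.re + w.im * w.im = 1 := by
    have := Complex.normSq_eq_norm_sq w
    rw [hw, Complex.normSq_apply] at this
    linarith
  have h1 : p z - p w = (z - w) * (1 + (z ^ 2 + z * w + w ^ 2) / 10) := by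
    unfold p; ring
  have h2 : z ^ 2 + z * w + w ^ 2 =
      ((1 + 2 * (z * (starRingEnd ℂ) w).re : ℝ) : ℂ) * (z * w) := by
    have hzz : z * (starRingEnd ℂ) z = 1 := by
      rw [Complex.mul_conj, Complex.normSq_eq_norm_sq, hz]; norm_num
    have hww : w * (starRingEnd ℂ) w = 1 := by
      rw [Complex.mul_conj, Complex.normSq_eq_norm_sq, hw]; norm_num
    have h3 : ((2 * (z * (starRingEnd ℂ) w).re : ℝ) : ℂ) =
        z * (starRingEnd ℂ) w + (starRingEnd ℂ) z * w := by
      rw [← Complex.add_conj]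
      simp
    rw [Complex.ofReal_add, h3, Complex.ofReal_one]
    linear_combination (-(z ^ 2)) * hww - w ^ 2 * hzz
  rw [h1, norm_mul, mul_pow, ← Complex.normSq_eq_norm_sq, ← Complex.normSq_eq_norm_sq, h2]
  set c := (z * (starRingEnd ℂ) w).re with hc
  have hc' : c = z.re * w.re + z.im * w.im := by
    rw [hc]; simp
  have e1 : Complex.normSq (z - w) = 2 - 2 * c := by
    rw [Complex.normSq_apply, hc']
    simp only [Complex.sub_re, Complex.sub_im]
    nlinarith
  have e2 : Complex.normSq (z * w) = 1 := by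
    rw [Complex.normSq_mul, Complex.normSq_apply, Complex.normSq_apply, hz', hw', one_mul]
  have e3 : Complex.normSq (1 + ((1 + 2 * c : ℝ) : ℂ) * (z * w) / 10) =
      1 + (1 + 2 * c) * (z * w).re / 5 + (1 + 2 * c) ^ 2 / 100 * Complex.normSq (z * w) := by
    rw [Complex.normSq_apply, Complex.normSq_apply]
    have r1 : (1 + ((1 + 2 * c : ℝ) : ℂ) * (z * w) / 10).re = 1 + (1 + 2 * c) * (z * w).re / 10 := by
      simp
    have r2 : (1 + ((1 + 2 * c : ℝ) : ℂ) * (z * w) / 10).im = (1 + 2 * c) * (z * w).im / 10 := by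
      simp
    rw [r1, r2]
    ring
  rw [e1, e3, e2, mul_one]

lemma abs_re_le {z w : ℂ} (hz : ‖z‖ = 1) (hw : ‖w‖ = 1) : |(z * w).re| ≤ 1 := by
  refine (Complex.abs_re_le_norm _).trans ?_
  rw [norm_mul, hz, hw, one_mul]

lemma dist_three_iff {z w : ℂ} (hz : ‖z‖ = 1) (hw : ‖w‖ = 1) :
    ‖p z - p w‖ ^ 2 = 3 ↔ (w = om * z ∨ w = om ^ 2 * z) := by
  have hs := abs_le.1 (abs_re_le hz hw)
  have hc := abs_le.1 (abs_re_le hz (by rw [RCLike.norm_conj]; exact hw :
    ‖(starRingEnd ℂ) w‖ = 1))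
  have hww : w * (starRingEnd ℂ) w = 1 := by
    rw [Complex.mul_conj, Complex.normSq_eq_norm_sq, hw]; norm_num
  have hzz : z * (starRingEnd ℂ) z = 1 := by
    rw [Complex.mul_conj, Complex.normSq_eq_norm_sq, hz]; norm_num
  have hfac : (w - om * z) * (w - om ^ 2 * z) = z ^ 2 + z * w + w ^ 2 := by
    linear_combination (-(w * z)) * om_eq + z ^ 2 * om_cube
  have h2 : z ^ 2 + z * w + w ^ 2 =
      ((1 + 2 * (z * (starRingEnd ℂ) w).re : ℝ) : ℂ) * (z * w) := by
    have h3 : ((2 * (z * (starRingEnd ℂ) w).re : ℝ) : ℂ) =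
        z * (starRingEnd ℂ) w + (starRingEnd ℂ) z * w := by
      rw [← Complex.add_conj]
      simp
    rw [Complex.ofReal_add, h3, Complex.ofReal_one]
    linear_combination (-(z ^ 2)) * hww - w ^ 2 * hzz
  have hzw : z * w ≠ 0 := by
    rw [← norm_ne_zero_iff, norm_mul, hz, hw]; norm_num
  have key : ‖p z - p w‖ ^ 2 = 3 ↔ 1 + 2 * (z * (starRingEnd ℂ) w).re = 0 := by
    rw [normSq_sub z w hz hw]
    set c := (z * (starRingEnd ℂ) w).re
    set s := (z * w).re
    constructor
    · intro h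
      have h1 : (1 + 2 * c) * (-1 + (2 - 2 * c) * (s / 5 + (1 + 2 * c) / 100)) = 0 := by
        linear_combination h
      rcases mul_eq_zero.1 h1 with h1 | h1
      · exact h1
      · exfalso
        have h4 : s / 5 + (1 + 2 * c) / 100 ≤ 23 / 100 := by linarith [hs.2, hc.2]
        have h5 : (2 - 2 * c) * (s / 5 + (1 + 2 * c) / 100) ≤ (2 - 2 * c) * (23 / 100) :=
          mul_le_mul_of_nonneg_left h4 (by linarith [hc.2])
        linarith [hc.1]
    · intro h
      rw [h]
      have : c = -1 / 2 := by linarith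
      rw [this]
      norm_num
  rw [key]
  constructor
  · intro h
    rw [h] at h2
    rw [h2] at hfac
    simp only [Complex.ofReal_zero, zero_mul, mul_eq_zero] at hfac
    exact hfac.imp sub_eq_zero.1 sub_eq_zero.1
  · intro h
    have h0 : (w - om * z) * (w - om ^ 2 * z) = 0 := by
      rcases h with h | h <;> simp [← h]
    rw [hfac, h2] at h0
    have := (mul_eq_zero.1 h0).resolve_right hzw
    exact_mod_cast this

lemma p_injective {z w : ℂ} (hz : ‖z‖ = 1) (hw : ‖w‖ = 1) (h : p z = p w) : z = w := by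
  have h1 : (z - w) * (1 + (z ^ 2 + z * w + w ^ 2) / 10) = 0 := by
    have : p z - p w = 0 := sub_eq_zero.2 h
    rw [← this]; unfold p; ring
  rcases mul_eq_zero.1 h1 with h1 | h1
  · exact sub_eq_zero.1 h1
  · exfalso
    have h2 : z ^ 2 + z * w + w ^ 2 = -10 := by linear_combination 10 * h1
    have h3 : ‖z ^ 2 + z * w + w ^ 2‖ ≤ 3 := by
      refine (norm_add_le _ _).trans ?_
      refine (add_le_add_left (norm_add_le _ _) _).trans ?_
      simp only [norm_pow, norm_mul, hz, hw]
      norm_num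
    rw [h2] at h3
    norm_num at h3

/-! ## The curves in space -/

section Space

variable {n : ℕ} (e : Fin 3 → E n) (k : ℝ)

/-- the point with coordinates `z` and `h` -/
noncomputable def pt (z : ℂ) (h : ℝ) : E n := z.re • e 0 + z.im • e 1 + h • e 2

end Space

/-- What is used of two parametrised curves. -/
structure Good {n : ℕ} (P Q : Circle → E n) (d : ℝ) : Prop where
  injP : Function.Injective P
  injQ : Function.Injective Q
  dist_iff : ∀ z w, dist (P z) (Q w) = d ↔ ((w : ℂ) = om * z ∨ (w : ℂ) = om ^ 2 * z)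
  cases : P = Q ∨ Disjoint (Set.range P) (Set.range Q)

/-- `om` as an element of the circle -/
noncomputable def omc : Circle := ⟨om, mem_sphere_zero_iff_norm.2 om_norm⟩

lemma omc_coe : (omc : ℂ) = om := rfl

lemma omc_cube : omc ^ 3 = 1 := by
  apply Circle.ext
  rw [Circle.coe_pow, omc_coe, om_cube]; rfl

lemma omc_ne : omc ^ 2 ≠ omc := by
  intro h
  have := congrArg (fun x : Circle => (x : ℂ)) h
  simp only [Circle.coe_pow, omc_coe] at this
  exact om_ne this

lemma Good.dist_iff' {n : ℕ} {P Q : Circle → E n} {d : ℝ} (h : Good P Q d) (z w : Circle) :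
    dist (P z) (Q w) = d ↔ (w = omc * z ∨ w = omc ^ 2 * z) := by
  rw [h.dist_iff]
  simp only [Circle.ext_iff, Circle.coe_mul, Circle.coe_pow, omc_coe]

lemma Good.symm {n : ℕ} {P Q : Circle → E n} {d : ℝ} (h : Good P Q d) : Good Q P d := by
  refine ⟨h.injQ, h.injP, fun z w => ?_, h.cases.imp Eq.symm fun h => h.symm⟩
  rw [dist_comm, h.dist_iff' w z]
  have hc := omc_cube
  have key : (z = omc * w ∨ z = omc ^ 2 * w) ↔ (w = omc * z ∨ w = omc ^ 2 * z) := by
    constructor
    · rintro (rfl | rfl)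
      · right
        rw [← mul_assoc, ← pow_succ, hc, one_mul]
      · left
        rw [← mul_assoc, ← pow_succ', hc, one_mul]
    · rintro (rfl | rfl)
      · right
        rw [← mul_assoc, ← pow_succ, hc, one_mul]
      · left
        rw [← mul_assoc, ← pow_succ', hc, one_mul]
  rw [key]
  simp only [Circle.ext_iff, Circle.coe_mul, Circle.coe_pow, omc_coe]

/-- The neighbours of `P z`. -/
lemma Good.adj_left {n : ℕ} {P Q : Circle → E n} {d : ℝ} (hd : 0 < d) (h : Good P Q d)
    (z : Circle) (x : ↥(Set.range P ∪ Set.range Q)) (hx : (x : E n) = P z)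
    (y : ↥(Set.range P ∪ Set.range Q)) :
    (distGraph (Set.range P) (Set.range Q) d hd).Adj x y ↔
      ((y : E n) = Q (omc * z) ∨ (y : E n) = Q (omc ^ 2 * z)) := by
  constructor
  · rintro ⟨h1, h2⟩
    have hyB : (y : E n) ∈ Set.range Q := by
      rcases h1 with ⟨_, h1⟩ | ⟨h1, h3⟩
      · exact h1
      · rcases h.cases with hPQ | hdis
        · exact (congrArg Set.range hPQ).le h3
        · exact absurd h1 (Set.disjoint_left.1 hdis ⟨z, hx.symm⟩)
    obtain ⟨w, hw⟩ := hyB
    rw [hx, ← hw, h.dist_iff'] at h2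
    rw [← hw]
    rcases h2 with rfl | rfl
    · exact Or.inl rfl
    · exact Or.inr rfl
  · intro h1
    refine ⟨Or.inl ⟨⟨z, hx.symm⟩, ?_⟩, ?_⟩
    · rcases h1 with h1 | h1 <;> exact ⟨_, h1.symm⟩
    · rw [hx]
      rcases h1 with h1 | h1
      · rw [h1, h.dist_iff']; exact Or.inl rfl
      · rw [h1, h.dist_iff']; exact Or.inr rfl

/-- The neighbours of `Q z`. -/
lemma Good.adj_right {n : ℕ} {P Q : Circle → E n} {d : ℝ} (hd : 0 < d) (h : Good P Q d)
    (z : Circle) (x : ↥(Set.range P ∪ Set.range Q)) (hx : (x : E n) = Q z)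
    (y : ↥(Set.range P ∪ Set.range Q)) :
    (distGraph (Set.range P) (Set.range Q) d hd).Adj x y ↔
      ((y : E n) = P (omc * z) ∨ (y : E n) = P (omc ^ 2 * z)) := by
  constructor
  · rintro ⟨h1, h2⟩
    have hyB : (y : E n) ∈ Set.range P := by
      rcases h1 with ⟨h1, h3⟩ | ⟨_, h1⟩
      · rcases h.cases with hPQ | hdis
        · exact (congrArg Set.range hPQ).ge h3
        · exact absurd (show (x : E n) ∈ Set.range Q from ⟨z, hx.symm⟩)
            (Set.disjoint_left.1 hdis h1)
      · exact h1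
    obtain ⟨w, hw⟩ := hyB
    rw [hx, ← hw, h.symm.dist_iff'] at h2
    rw [← hw]
    rcases h2 with rfl | rfl
    · exact Or.inl rfl
    · exact Or.inr rfl
  · intro h1
    refine ⟨Or.inr ⟨⟨z, hx.symm⟩, ?_⟩, ?_⟩
    · rcases h1 with h1 | h1 <;> exact ⟨_, h1.symm⟩
    · rw [hx]
      rcases h1 with h1 | h1
      · rw [h1, h.symm.dist_iff']; exact Or.inl rfl
      · rw [h1, h.symm.dist_iff']; exact Or.inr rfl

lemma mul_ne (z : Circle) : omc ^ 2 * z ≠ omc * z := fun h => omc_ne (mul_right_cancel h)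

lemma Good.ncard {n : ℕ} {P Q : Circle → E n} {d : ℝ} (hd : 0 < d) (h : Good P Q d)
    (x : ↥(Set.range P ∪ Set.range Q)) :
    ((distGraph (Set.range P) (Set.range Q) d hd).neighborSet x).ncard = 2 := by
  rw [Set.ncard_eq_two]
  rcases x.2 with ⟨z, hz⟩ | ⟨z, hz⟩
  · refine ⟨⟨Q (omc * z), Or.inr ⟨_, rfl⟩⟩, ⟨Q (omc ^ 2 * z), Or.inr ⟨_, rfl⟩⟩, ?_, ?_⟩
    · intro he
      exact mul_ne z (h.injQ (congrArg Subtype.val he)).symm
    · ext y
      rw [SimpleGraph.mem_neighborSet, h.adj_left hd z x hz.symm]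
      simp [Subtype.ext_iff]
  · refine ⟨⟨P (omc * z), Or.inl ⟨_, rfl⟩⟩, ⟨P (omc ^ 2 * z), Or.inl ⟨_, rfl⟩⟩, ?_, ?_⟩
    · intro he
      exact mul_ne z (h.injP (congrArg Subtype.val he)).symm
    · ext y
      rw [SimpleGraph.mem_neighborSet, h.adj_right hd z x hz.symm]
      simp [Subtype.ext_iff]

lemma Good.finite {n : ℕ} {P Q : Circle → E n} {d : ℝ} (hd : 0 < d) (h : Good P Q d)
    (C : (distGraph (Set.range P) (Set.range Q) d hd).ConnectedComponent) : C.supp.Finite := by
  induction C using SimpleGraph.ConnectedComponent.ind with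
  | _ x =>
  obtain ⟨z, hz⟩ : ∃ z : Circle, (x : E n) = P z ∨ (x : E n) = Q z := by
    rcases x.2 with ⟨z, hz⟩ | ⟨z, hz⟩
    · exact ⟨z, Or.inl hz.symm⟩
    · exact ⟨z, Or.inr hz.symm⟩
  -- all vertices which can be reached
  have key : ∀ y, (distGraph (Set.range P) (Set.range Q) d hd).Reachable x y →
      ∃ j : Fin 3, (y : E n) = P (omc ^ (j : ℕ) * z) ∨ (y : E n) = Q (omc ^ (j : ℕ) * z) := by
    intro y hy
    rw [SimpleGraph.reachable_iff_reflTransGen] at hy
    induction hy with
    | refl => exact ⟨0, by simpa using hz⟩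
    | tail _ hadj ih =>
      rename_i b c _
      have step : ∀ j : Fin 3, ∃ i : Fin 3, omc * (omc ^ (j : ℕ) * z) = omc ^ (i : ℕ) * z := by
        intro j
        fin_cases j
        · exact ⟨1, by simp⟩
        · exact ⟨2, by simp [pow_two, mul_assoc]⟩
        · refine ⟨0, ?_⟩
          have := omc_cube
          simp only [pow_succ, pow_zero, one_mul] at this ⊢
          simp only [Fin.val_zero, pow_zero, one_mul]
          rw [← mul_assoc, ← mul_assoc, this, one_mul]
      obtain ⟨j, hj⟩ := ih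
      obtain ⟨i1, hi1⟩ := step j
      obtain ⟨i2, hi2⟩ := step i1
      have h2 : omc ^ 2 * (omc ^ (j : ℕ) * z) = omc ^ (i2 : ℕ) * z := by
        rw [← hi2, ← hi1, pow_two, mul_assoc]
      rcases hj with hj | hj
      · rw [h.adj_left hd _ b hj, hi1, h2] at hadj
        rcases hadj with h3 | h3
        · exact ⟨i1, Or.inr h3⟩
        · exact ⟨i2, Or.inr h3⟩
      · rw [h.adj_right hd _ b hj, hi1, h2] at hadj
        rcases hadj with h3 | h3
        · exact ⟨i1, Or.inl h3⟩
        · exact ⟨i2, Or.inl h3⟩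
  have hfin : (Set.range (fun j : Fin 3 => P (omc ^ (j : ℕ) * z)) ∪
      Set.range (fun j : Fin 3 => Q (omc ^ (j : ℕ) * z))).Finite :=
    (Set.finite_range _).union (Set.finite_range _)
  refine Set.Finite.subset (hfin.preimage (f := Subtype.val) Subtype.val_injective.injOn) ?_
  intro y hy
  rw [SimpleGraph.ConnectedComponent.mem_supp_iff, SimpleGraph.ConnectedComponent.eq] at hy
  obtain ⟨j, hj⟩ := key y hy.symm
  rcases hj with hj | hj
  · exact Or.inl ⟨j, hj.symm⟩
  · exact Or.inr ⟨j, hj.symm⟩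

/-! ## Construction -/

lemma norm_pt_sq {n : ℕ} (e : Fin 3 → E n) (h01 : inner ℝ (e 0) (e 1) = 0)
    (h02 : inner ℝ (e 0) (e 2) = 0) (h12 : inner ℝ (e 1) (e 2) = 0)
    (h0 : ‖e 0‖ = 1) (h1 : ‖e 1‖ = 1) (z : ℂ) (h : ℝ) :
    ‖pt e z h‖ ^ 2 = ‖z‖ ^ 2 + h ^ 2 * ‖e 2‖ ^ 2 := by
  have h01' : inner ℝ (e 1) (e 0) = 0 := by rw [real_inner_comm]; exact h01
  have h02' : inner ℝ (e 2) (e 0) = 0 := by rw [real_inner_comm]; exact h02
  have h12' : inner ℝ (e 2) (e 1) = 0 := by rw [real_inner_comm]; exact h12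
  rw [← real_inner_self_eq_norm_sq]
  unfold pt
  simp only [inner_add_left, inner_add_right, inner_smul_left, inner_smul_right,
    h01, h02, h12, h01', h02', h12', real_inner_self_eq_norm_sq, h0, h1]
  rw [← Complex.normSq_eq_norm_sq z, Complex.normSq_apply]
  simp
  ring

lemma pt_sub {n : ℕ} (e : Fin 3 → E n) (z w : ℂ) (h k : ℝ) :
    pt e z h - pt e w k = pt e (z - w) (h - k) := by
  unfold pt
  simp only [Complex.sub_re, Complex.sub_im, sub_smul]
  abel

/-- no sphere contains the curve at height `h` -/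
lemma not_circle {n : ℕ} (e : Fin 3 → E n) (h01 : inner ℝ (e 0) (e 1) = 0)
    (h02 : inner ℝ (e 0) (e 2) = 0) (h12 : inner ℝ (e 1) (e 2) = 0)
    (h0 : ‖e 0‖ = 1) (h1 : ‖e 1‖ = 1) (h : ℝ) :
    ¬ IsCircle (Set.range (fun z : Circle => pt e (p z) h)) := by
  rintro ⟨c, r, P, -, -, hC⟩
  have hmem : ∀ z : Circle, dist (pt e (p z) h) c = r := by
    intro z
    have : pt e (p z) h ∈ Set.range (fun z : Circle => pt e (p z) h) := ⟨z, rfl⟩
    rw [hC] at this
    exact this.2
  have hsq : ∀ z : Circle, ‖pt e (p z) 0 - (c - h • e 2)‖ ^ 2 = r ^ 2 := by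
    intro z
    rw [← hmem z, dist_eq_norm]
    congr 2
    unfold pt
    simp only [zero_smul, add_zero]
    abel
  have hexp : ∀ z : Circle, ‖p z‖ ^ 2 - 2 * ((p z).re * inner ℝ (e 0) (c - h • e 2) +
      (p z).im * inner ℝ (e 1) (c - h • e 2)) + ‖c - h • e 2‖ ^ 2 = r ^ 2 := by
    intro z
    have h6 := norm_sub_sq_real (pt e (p z) 0) (c - h • e 2)
    rw [hsq z, norm_pt_sq e h01 h02 h12 h0 h1] at h6
    have h7 : inner ℝ (pt e (p z) 0) (c - h • e 2) =
        (p z).re * inner ℝ (e 0) (c - h • e 2) + (p z).im * inner ℝ (e 1) (c - h • e 2) := by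
      unfold pt
      rw [zero_smul, add_zero, inner_add_left, real_inner_smul_left, real_inner_smul_left]
    rw [h7] at h6
    linarith
  have hI : ‖(Complex.I : ℂ)‖ = 1 := Complex.norm_I
  let zI : Circle := ⟨Complex.I, mem_sphere_zero_iff_norm.2 hI⟩
  have p1 : p ((1 : Circle) : ℂ) = 11 / 10 := by
    unfold p; rw [Circle.coe_one]; norm_num
  have pm1 : p (((-1 : Circle)) : ℂ) = -(11 / 10) := by
    unfold p
    have : (((-1 : Circle)) : ℂ) = -1 := rfl
    rw [this]; norm_num
  have pI : p ((zI : Circle) : ℂ) = (9 / 10 : ℝ) * Complex.I := by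
    unfold p
    have : ((zI : Circle) : ℂ) = Complex.I := rfl
    rw [this]
    have h3 : (Complex.I) ^ 3 = -Complex.I := by
      rw [pow_succ, Complex.I_sq]; ring
    rw [h3]
    push_cast
    ring
  have pmI : p (((-zI : Circle)) : ℂ) = -((9 / 10 : ℝ) * Complex.I) := by
    unfold p
    have : (((-zI : Circle)) : ℂ) = -Complex.I := rfl
    rw [this]
    have h3 : (-Complex.I) ^ 3 = Complex.I := by
      have h4 : (Complex.I) ^ 3 = -Complex.I := by
        rw [pow_succ, Complex.I_sq]; ring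
      linear_combination -h4
    rw [h3]
    push_cast
    ring
  have q1 := hexp 1
  have q2 := hexp (-1)
  have q3 := hexp zI
  have q4 := hexp (-zI)
  rw [p1] at q1
  rw [pm1] at q2
  rw [pI] at q3
  rw [pmI] at q4
  have n1 : ‖(11 / 10 : ℂ)‖ = 11 / 10 := by norm_num
  have n2 : ‖(((9 / 10 : ℝ) : ℂ)) * Complex.I‖ = 9 / 10 := by
    rw [norm_mul, hI, mul_one, Complex.norm_real]; norm_num
  rw [n1] at q1
  rw [norm_neg, n1] at q2
  rw [n2] at q3
  rw [norm_neg, n2] at q4
  simp only [Complex.neg_re, Complex.neg_im] at q2 q4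
  linarith

lemma continuous_pt {n : ℕ} (e : Fin 3 → E n) (h : ℝ) :
    Continuous (fun z : Circle => pt e (p z) h) := by
  unfold pt p
  fun_prop

lemma pt_injective {n : ℕ} (e : Fin 3 → E n) (h01 : inner ℝ (e 0) (e 1) = 0)
    (h02 : inner ℝ (e 0) (e 2) = 0) (h12 : inner ℝ (e 1) (e 2) = 0)
    (h0 : ‖e 0‖ = 1) (h1 : ‖e 1‖ = 1) (h : ℝ) :
    Function.Injective (fun z : Circle => pt e (p z) h) := by
  intro z w hzw
  have h2 : ‖pt e (p z) h - pt e (p w) h‖ ^ 2 = 0 := by
    simp only at hzw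
    rw [hzw, sub_self]; simp
  rw [pt_sub, norm_pt_sq e h01 h02 h12 h0 h1] at h2
  simp only [sub_self, ne_eq, OfNat.ofNat_ne_zero, not_false_eq_true, zero_pow, zero_mul,
    add_zero] at h2
  have h3 : p z = p w := by
    rw [pow_eq_zero_iff (by norm_num), norm_eq_zero] at h2
    exact sub_eq_zero.1 h2
  exact Circle.ext (p_injective (Circle.norm_coe z) (Circle.norm_coe w) h3)

lemma simple {n : ℕ} (e : Fin 3 → E n) (h01 : inner ℝ (e 0) (e 1) = 0)
    (h02 : inner ℝ (e 0) (e 2) = 0) (h12 : inner ℝ (e 1) (e 2) = 0)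
    (h0 : ‖e 0‖ = 1) (h1 : ‖e 1‖ = 1) (h : ℝ) :
    IsSimpleClosedLocus (Set.range (fun z : Circle => pt e (p z) h)) :=
  ⟨_, continuous_pt e h, pt_injective e h01 h02 h12 h0 h1 h, rfl⟩

/-- For every `n ≥ 2` there are homothetic closed loci `A`, `B` in `E^n` and `d > 0` such that every
point of `A ∪ B` has exactly two neighbours in `G_d` and all components of `G_d` are finite, and
neither `A` nor `B` is a circle; moreover `A` and `B` are simple closed curves, `B` is a translate
of `A`, and for `n ≥ 3` they are disjoint. -/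
theorem result (n : ℕ) (hn : 2 ≤ n) :
    ∃ (A B : Set (E n)) (d : ℝ) (hd : 0 < d),
      IsClosedLocus A ∧ IsClosedLocus B ∧ Homothetic A B ∧
      (∀ x, ((distGraph A B d hd).neighborSet x).ncard = 2) ∧
      (∀ C : (distGraph A B d hd).ConnectedComponent, C.supp.Finite) ∧
      ¬ IsCircle A ∧ ¬ IsCircle B ∧
      IsSimpleClosedLocus A ∧ IsSimpleClosedLocus B ∧ (∃ t : E n, B = (fun x => x + t) '' A) ∧
      (3 ≤ n → Disjoint A B) := by
  classical
  have hloc : ∀ A : Set (E n), IsSimpleClosedLocus A → IsClosedLocus A := by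
    rintro A ⟨f, h1, _, h3⟩
    exact ⟨f, h1, h3⟩
  by_cases h3 : 3 ≤ n
  · -- three orthonormal vectors
    let ι : Fin 3 → Fin n := Fin.castLE h3
    have hι : Function.Injective ι := Fin.castLE_injective h3
    let e : Fin 3 → E n := fun i => EuclideanSpace.single (ι i) (1 : ℝ)
    have hort : ∀ i j, i ≠ j → inner ℝ (e i) (e j) = 0 := by
      intro i j hij
      simp only [e]
      rw [EuclideanSpace.inner_single_left]
      simp [hι.ne hij]
    have hnorm : ∀ i, ‖e i‖ = 1 := by
      intro i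
      simp [e]
    have h01 := hort 0 1 (by decide)
    have h02 := hort 0 2 (by decide)
    have h12 := hort 1 2 (by decide)
    have hdist : ∀ z w : Circle, dist (pt e (p z) 0) (pt e (p w) 1) = 2 ↔
        ((w : ℂ) = om * z ∨ (w : ℂ) = om ^ 2 * z) := by
      intro z w
      rw [← dist_three_iff (Circle.norm_coe z) (Circle.norm_coe w), dist_eq_norm, pt_sub]
      have h4 := norm_pt_sq e h01 h02 h12 (hnorm 0) (hnorm 1) (p z - p w) (0 - 1)
      rw [hnorm 2] at h4
      constructor
      · intro h5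
        rw [h5] at h4
        linarith
      · intro h5
        rw [h5] at h4
        have h6 : ‖pt e (p ↑z - p ↑w) (0 - 1)‖ ^ 2 = 2 ^ 2 := by rw [h4]; norm_num
        exact (pow_left_inj₀ (norm_nonneg _) (by norm_num) (by norm_num)).1 h6
    have hdisj : Disjoint (Set.range (fun z : Circle => pt e (p z) 0))
        (Set.range (fun z : Circle => pt e (p z) 1)) := by
      rw [Set.disjoint_left]
      rintro _ ⟨z, rfl⟩ ⟨w, hw⟩
      have h5 : ‖pt e (p w) 1 - pt e (p z) 0‖ ^ 2 = 0 := by
        simp only at hw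
        rw [hw, sub_self]; simp
      rw [pt_sub, norm_pt_sq e h01 h02 h12 (hnorm 0) (hnorm 1), hnorm 2] at h5
      nlinarith [sq_nonneg ‖p (w : ℂ) - p (z : ℂ)‖]
    have hgood : Good (fun z : Circle => pt e (p z) 0) (fun z : Circle => pt e (p z) 1) 2 :=
      ⟨pt_injective e h01 h02 h12 (hnorm 0) (hnorm 1) 0,
        pt_injective e h01 h02 h12 (hnorm 0) (hnorm 1) 1, hdist, Or.inr hdisj⟩
    have htrans : Set.range (fun z : Circle => pt e (p z) 1) =
        (fun x => x + e 2) '' Set.range (fun z : Circle => pt e (p z) 0) := by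
      rw [← Set.range_comp]
      congr 1
      funext z
      simp [pt]
    refine ⟨_, _, 2, by norm_num, hloc _ ?_, hloc _ ?_, ⟨1, e 2, one_ne_zero, ?_⟩,
      hgood.ncard (by norm_num), hgood.finite (by norm_num), ?_, ?_, ?_, ?_, ⟨e 2, htrans⟩,
      fun _ => hdisj⟩
    · exact simple e h01 h02 h12 (hnorm 0) (hnorm 1) 0
    · exact simple e h01 h02 h12 (hnorm 0) (hnorm 1) 1
    · simpa using htrans
    · exact not_circle e h01 h02 h12 (hnorm 0) (hnorm 1) 0
    · exact not_circle e h01 h02 h12 (hnorm 0) (hnorm 1) 1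
    · exact simple e h01 h02 h12 (hnorm 0) (hnorm 1) 0
    · exact simple e h01 h02 h12 (hnorm 0) (hnorm 1) 1
  · -- the plane
    let e : Fin 3 → E n := fun i => if i = 0 then EuclideanSpace.single ⟨0, by omega⟩ (1 : ℝ) else
      if i = 1 then EuclideanSpace.single ⟨1, by omega⟩ (1 : ℝ) else 0
    have h01 : inner ℝ (e 0) (e 1) = 0 := by
      simp [e, EuclideanSpace.inner_single_left]
    have h02 : inner ℝ (e 0) (e 2) = 0 := by simp [e]
    have h12 : inner ℝ (e 1) (e 2) = 0 := by simp [e]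
    have hn0 : ‖e 0‖ = 1 := by simp [e]
    have hn1 : ‖e 1‖ = 1 := by simp [e]
    have hdist : ∀ z w : Circle, dist (pt e (p z) 0) (pt e (p w) 0) = Real.sqrt 3 ↔
        ((w : ℂ) = om * z ∨ (w : ℂ) = om ^ 2 * z) := by
      intro z w
      rw [← dist_three_iff (Circle.norm_coe z) (Circle.norm_coe w), dist_eq_norm, pt_sub]
      have h4 := norm_pt_sq e h01 h02 h12 hn0 hn1 (p z - p w) (0 - 0)
      simp only [sub_self, ne_eq, OfNat.ofNat_ne_zero, not_false_eq_true, zero_pow, zero_mul,
        add_zero] at h4 ⊢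
      rw [← h4]
      constructor
      · intro h5
        rw [h5, Real.sq_sqrt (by norm_num)]
      · intro h5
        rw [← h5, Real.sqrt_sq (norm_nonneg _)]
    have hgood : Good (fun z : Circle => pt e (p z) 0) (fun z : Circle => pt e (p z) 0)
        (Real.sqrt 3) :=
      ⟨pt_injective e h01 h02 h12 hn0 hn1 0, pt_injective e h01 h02 h12 hn0 hn1 0, hdist,
        Or.inl rfl⟩
    have hpos : 0 < Real.sqrt 3 := Real.sqrt_pos.2 (by norm_num)
    refine ⟨_, _, Real.sqrt 3, hpos, hloc _ ?_, hloc _ ?_, ⟨1, 0, one_ne_zero, ?_⟩,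
      hgood.ncard hpos, hgood.finite hpos, ?_, ?_, ?_, ?_, ⟨0, ?_⟩,
      fun h => absurd h h3⟩
    · exact simple e h01 h02 h12 hn0 hn1 0
    · exact simple e h01 h02 h12 hn0 hn1 0
    · simp
    · exact not_circle e h01 h02 h12 hn0 hn1 0
    · exact not_circle e h01 h02 h12 hn0 hn1 0
    · exact simple e h01 h02 h12 hn0 hn1 0
    · exact simple e h01 h02 h12 hn0 hn1 0
    · simp

end Pool.Agent.Results.MP_945a85_co.NotCircles
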